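import Mathlib
import Pool.Agent.Lib.MP_f85a7a_nt.Main

set_option autoImplicit false

/-!
# Arbitrarily long runs of consecutive integers with equally many divisors

For every `k` there are infinitely many positive integers `n` with
`d(n) = d(n + 1) = ⋯ = d(n + k - 1)`.
-/

namespace Pool.Agent.Results.MP_f85a7a_nt.LongRuns

/-- For every `k` and every bound `N` there is an integer `n > N` such that the `k` consecutive
integers `n, n + 1, …, n + k - 1` all have the same number of divisors. -/
theorem result : ∀ k N : ℕ, ∃ n : ℕ, N < n ∧
    ∀ i < k, (n + i).divisors.card = n.divisors.card := by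
  intro k N
  obtain ⟨n, hn, h⟩ := Pool.Agent.Lib.MP_f85a7a_nt.exists_run (k + N + 1)
  refine ⟨n + N, by omega, fun i hi => ?_⟩
  have h1 : (n + (N + i)).divisors.card = n.divisors.card := h (N + i) (by omega)
  have h2 : (n + N).divisors.card = n.divisors.card := h N (by omega)
  rw [add_assoc, h1, h2]

end Pool.Agent.Results.MP_f85a7a_nt.LongRuns
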